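import Mathlib
import Pool.Agent.Helper977.L1Semi.AP9

/-!
# Boundary blow-up of analytic semigroups in `L¹(ℝ)`

The norms of an analytic semigroup in the convolution algebra `L¹(ℝ)` blow up at almost every pair
`{iy, -iy}` of boundary points. The proof is that of the starting file
`Pool.Agent.Helper977.L1Semi.AP9`, applied to the group of the `y` for which both boundary values
are Fourier-Stieltjes transforms.
-/

set_option autoImplicit false

open MeasureTheory Set Filter Topology Complex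
open Pool.Agent.Helper977.L1Semi
open scoped ENNReal NNReal BoundedContinuousFunction ComplexConjugate FourierTransform Pointwise

namespace Pool.Agent.Y869.LS

/-- `liminf_{x → 0+} ‖a (x + i y)‖ < ∞` -/
def SB (a : ℂ → Lp ℂ 1 (volume : Measure ℝ)) (y : ℝ) : Prop :=
  ∃ C : ℝ, ∀ δ : ℝ, 0 < δ → ∃ x : ℝ, 0 < x ∧ x < δ ∧ ‖a ((x : ℂ) + I * y)‖ ≤ C

/-- The norms blow up at almost every pair `{iy, -iy}` of boundary points. -/
theorem blow (a : ℂ → Lp ℂ 1 (volume : Measure ℝ)) (hd : DifferentiableOn ℂ a HP)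
    (hmul : ∀ s t : ℂ, s ∈ HP → t ∈ HP →
      (a (s + t) : ℝ → ℂ) =ᵐ[volume] fun x => ∫ y, (a s : ℝ → ℂ) (x - y) * (a t : ℝ → ℂ) y)
    (hne : ∃ t ∈ HP, a t ≠ 0) : volume {y : ℝ | SB a y ∧ SB a (-y)} = 0 := by
  classical
  by_contra hpos
  have h1m : (1 : ℂ) ∈ HP := by simp [HP]
  have hint : ∀ t, Integrable (a t : ℝ → ℂ) volume := fun t => L1.integrable_coeFn (a t)
  -- the Fourier transforms
  have hFm : ∀ w : ℝ, ∀ s t, s ∈ HP → t ∈ HP → evF w (a (s + t)) = evF w (a s) * evF w (a t) := by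
    intro w s t hs ht
    rw [evF_apply, evF_apply, evF_apply]
    exact fourier_mul_of_conv (hint s) (hint t) (hmul s t hs ht) w
  have hFd : ∀ w : ℝ, DifferentiableOn ℂ (fun t => evF w (a t)) HP := by
    intro w
    exact (evF w).differentiable.comp_differentiableOn hd
  set a' : Lp ℂ 1 (volume : Measure ℝ) := deriv a 1 with ha'
  have hFder : ∀ w : ℝ, deriv (fun t => evF w (a t)) 1 = 𝓕 (a' : ℝ → ℂ) w := by
    intro w
    have h2 : HasDerivAt a a' 1 := (hd.differentiableAt (HP_open.mem_nhds h1m)).hasDerivAt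
    have h3 := (evF w).hasFDerivAt.comp_hasDerivAt 1 h2
    exact h3.deriv
  set F1 : ℝ → ℂ := 𝓕 (a 1 : ℝ → ℂ) with hF1
  set D1 : ℝ → ℂ := 𝓕 (a' : ℝ → ℂ) with hD1
  have hF1c : Continuous F1 := fourier_cont (hint 1)
  have hD1c : Continuous D1 := fourier_cont (L1.integrable_coeFn _)
  set U : Set ℝ := {w | F1 w ≠ 0} with hU
  have hUo : IsOpen U := isOpen_ne_fun hF1c continuous_const
  set l : ℝ → ℂ := fun w => D1 w / F1 w with hl
  have hlc : ContinuousOn l U := hD1c.continuousOn.div hF1c.continuousOn fun w hw => hw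
  have hUform : ∀ w ∈ U, ∀ t ∈ HP, 𝓕 (a t : ℝ → ℂ) w = cexp (t * l w) := by
    intro w hw t ht
    have h2 := exp_form (hFd w) (hFm w) hw ht
    rw [hFder w] at h2
    exact h2
  have hUzero : ∀ w, w ∉ U → ∀ t ∈ HP, 𝓕 (a t : ℝ → ℂ) w = 0 := by
    intro w hw t ht
    have h0 : evF w (a 1) = 0 := by
      by_contra h
      exact hw h
    exact zero_form (φ := fun t => evF w (a t)) (hFm w) h0 ht
  have hUne : U.Nonempty := by
    obtain ⟨t, ht, hat⟩ := hne
    by_contra hcon
    rw [not_nonempty_iff_eq_empty] at hcon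
    apply hat
    have h2 : (a t : ℝ → ℂ) =ᵐ[volume] 0 := by
      apply fourier_inj (hint t)
      intro w
      apply hUzero w _ t ht
      rw [hcon]
      exact notMem_empty w
    exact (Lp.eq_zero_iff_ae_eq_zero).2 h2
  have hre : ∀ w ∈ U, Real.exp (l w).re = ‖F1 w‖ := by
    intro w hw
    have h2 := hUform w hw 1 h1m
    rw [one_mul] at h2
    have h3 : F1 w = cexp (l w) := h2
    rw [h3, Complex.norm_exp]
  -- boundary values
  have hcont : ∀ x : ℝ, 0 < x → Continuous fun y : ℝ => ‖a ((x : ℂ) + I * y)‖ := by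
    intro x hx
    have hm : ∀ y : ℝ, (x : ℂ) + I * y ∈ HP := by
      intro y
      show 0 < ((x : ℂ) + I * y).re
      simpa using hx
    have h2 : ContinuousOn (fun y : ℝ => a ((x : ℂ) + I * y)) univ :=
      hd.continuousOn.comp (f := fun y : ℝ => (x : ℂ) + I * y) (by fun_prop) fun y _ => hm y
    exact (continuousOn_univ.1 h2).norm
  set A : ℕ → Set ℝ := fun C => {y | ∀ n : ℕ, ∃ x : ℝ, 0 < x ∧ x < 1 / ((n : ℝ) + 1) ∧
    ‖a ((x : ℂ) + I * y)‖ < C} with hA
  have hAm : ∀ C, MeasurableSet (A C) := by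
    intro C
    have e : A C = ⋂ n : ℕ, ⋃ x : ℝ, {y : ℝ | (0 < x ∧ x < 1 / ((n : ℝ) + 1)) ∧
        ‖a ((x : ℂ) + I * y)‖ < C} := by
      ext y
      simp only [hA, mem_iInter, mem_iUnion, mem_ofPred_eq, and_assoc]
    rw [e]
    refine MeasurableSet.iInter fun n => IsOpen.measurableSet (isOpen_iUnion fun x => ?_)
    by_cases hx : 0 < x ∧ x < 1 / ((n : ℝ) + 1)
    · simp only [hx, and_self, true_and]
      exact isOpen_lt (hcont x hx.1) continuous_const
    · have : {y : ℝ | (0 < x ∧ x < 1 / ((n : ℝ) + 1)) ∧ ‖a ((x : ℂ) + I * y)‖ < C} = ∅ := by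
        ext y
        simp only [mem_ofPred_eq, mem_empty_iff_false, iff_false, not_and]
        exact fun h => absurd h hx
      rw [this]
      exact isOpen_empty
  have hAmono : ∀ C C' : ℕ, C ≤ C' → A C ⊆ A C' := by
    intro C C' h y hy n
    obtain ⟨x, h1, h2, h3⟩ := hy n
    exact ⟨x, h1, h2, h3.trans_le (by exact_mod_cast h)⟩
  have hSB : ∀ y, SB a y → ∃ C, y ∈ A C := by
    rintro y ⟨C, hC⟩
    obtain ⟨N, hN⟩ := exists_nat_gt C
    refine ⟨N, fun n => ?_⟩
    obtain ⟨x, h1, h2, h3⟩ := hC (1 / ((n : ℝ) + 1)) (by positivity)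
    exact ⟨x, h1, h2, h3.trans_lt hN⟩
  obtain ⟨C, hCpos⟩ : ∃ C : ℕ, volume (A C ∩ (fun y : ℝ => -y) ⁻¹' A C) ≠ 0 := by
    by_contra hcon
    push Not at hcon
    apply hpos
    refine measure_mono_null ?_ (measure_iUnion_null hcon)
    rintro y ⟨h1, h2⟩
    obtain ⟨C1, hC1⟩ := hSB y h1
    obtain ⟨C2, hC2⟩ := hSB (-y) h2
    exact mem_iUnion.2 ⟨max C1 C2, hAmono _ _ (le_max_left _ _) hC1,
      hAmono _ _ (le_max_right _ _) hC2⟩
  set K : Set ℝ := A C ∩ (fun y : ℝ => -y) ⁻¹' A C with hK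
  have hKm : MeasurableSet K := (hAm C).inter (measurable_neg (hAm C))
  have hnh : K - K ∈ 𝓝 (0 : ℝ) :=
    Measure.sub_mem_nhds_zero_of_addHaar_pos volume K hKm (pos_iff_ne_zero.2 hCpos)
  have hBA : ∀ y ∈ A C, ∃ H ∈ BB, ∀ w ∈ U, H w = cexp (I * y * l w) := by
    intro y hy
    choose x hx0 hx1 hxC using hy
    set t : ℕ → ℂ := fun n => ((x n : ℝ) : ℂ) + I * y with ht
    have htH : ∀ n, t n ∈ HP := by
      intro n
      show 0 < (((x n : ℝ) : ℂ) + I * y).re
      simpa using hx0 n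
    have htl : Tendsto t atTop (𝓝 (I * y)) := by
      have h2 : Tendsto x atTop (𝓝 0) :=
        squeeze_zero (fun n => (hx0 n).le) (fun n => (hx1 n).le)
          tendsto_one_div_add_atTop_nhds_zero_nat
      have h4 := ((Complex.continuous_ofReal.tendsto _).comp h2).add_const (I * (y : ℂ))
      rw [Complex.ofReal_zero, zero_add] at h4
      exact h4
    obtain ⟨H, hHB, hHae⟩ := vague (a := fun n => (a (t n) : ℝ → ℂ)) (fun n => hint _) (C := C)
      (fun n => by
        rw [← L1.norm_eq_integral_norm]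
        exact (hxC n).le) (h := fun w => if w ∈ U then cexp (I * y * l w) else 0)
      (fun w => by
        by_cases hw : w ∈ U
        · simp only [if_pos hw]
          have h2 : ∀ n, 𝓕 (a (t n) : ℝ → ℂ) w = cexp (t n * l w) := fun n =>
            hUform w hw _ (htH n)
          simp_rw [h2]
          have h3 : Continuous fun z : ℂ => cexp (z * l w) := by fun_prop
          exact (h3.tendsto _).comp htl
        · simp only [if_neg hw]
          have h2 : ∀ n, 𝓕 (a (t n) : ℝ → ℂ) w = 0 := fun n => hUzero w hw _ (htH n)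
          simp_rw [h2]
          exact tendsto_const_nhds)
    refine ⟨H, hHB, ?_⟩
    have h5 : H =ᵐ[volume.restrict U] fun w => cexp (I * y * l w) := by
      rw [EventuallyEq, ae_restrict_iff' hUo.measurableSet]
      filter_upwards [hHae] with w hw hwU
      rw [hw, if_pos hwU]
    have h6 : ContinuousOn (fun w => cexp (I * y * l w)) U :=
      (continuousOn_const.mul hlc).cexp
    exact fun w hw => Measure.eqOn_open_of_ae_eq h5 hUo (good_of_BB hHB).1.continuousOn h6 hw
  have hBadd : ∀ y y' : ℝ, (∃ H ∈ BB, ∀ w ∈ U, H w = cexp (I * y * l w)) →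
      (∃ H ∈ BB, ∀ w ∈ U, H w = cexp (I * y' * l w)) →
      ∃ H ∈ BB, ∀ w ∈ U, H w = cexp (I * ((y + y' : ℝ) : ℂ) * l w) := by
    rintro y y' ⟨H, hH, hHU⟩ ⟨K, hK, hKU⟩
    refine ⟨H * K, BB_mul hH hK, fun w hw => ?_⟩
    rw [Pi.mul_apply, hHU w hw, hKU w hw, ← Complex.exp_add]
    congr 1
    push_cast
    ring
  have hBmul : ∀ (n : ℕ) (y : ℝ), (∃ H ∈ BB, ∀ w ∈ U, H w = cexp (I * y * l w)) →
      ∃ H ∈ BB, ∀ w ∈ U, H w = cexp (I * ((((n : ℝ) + 1) * y : ℝ) : ℂ) * l w) := by
    intro n y h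
    induction n with
    | zero => simpa using h
    | succ n ih =>
      have h2 := hBadd _ _ ih h
      have e : ((((n + 1 : ℕ) : ℝ) + 1) * y : ℝ) = ((n : ℝ) + 1) * y + y := by
        push_cast
        ring
      rw [e]
      exact h2
  obtain ⟨δ, hδ, hball⟩ := Metric.mem_nhds_iff.1 hnh
  have hBs : ∀ y : ℝ, |y| < δ → ∃ H ∈ BB, ∀ w ∈ U, H w = cexp (I * y * l w) := by
    intro y hy
    obtain ⟨u, hu, v, hv, huv⟩ := hball (show y ∈ Metric.ball (0 : ℝ) δ by simpa using hy)
    have h2 := hBadd u (-v) (hBA u hu.1) (hBA (-v) hv.2)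
    have e : u + -v = y := by
      simp only at huv
      linarith
    rw [e] at h2
    exact h2
  have hB : ∀ y : ℝ, |y| < 1 → ∃ H ∈ BB, ∀ w ∈ U, H w = cexp (I * y * l w) := by
    intro y _
    obtain ⟨n, hn⟩ := exists_nat_gt (|y| / δ)
    have hn1 : (0 : ℝ) < (n : ℝ) + 1 := by positivity
    have h2 := hBmul n (y / ((n : ℝ) + 1)) (hBs _ (by
      rw [abs_div, abs_of_pos hn1, div_lt_iff₀ hn1]
      rw [div_lt_iff₀ hδ] at hn
      nlinarith))
    rw [mul_div_cancel₀ _ hn1.ne'] at h2
    exact h2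
  have hP : ∀ y : ℝ, y ∈ Ioo (0 : ℝ) 1 → ∃ P ∈ BB, ∀ w ∈ U,
      P w = cexp (((y * (2 * (l w).re) : ℝ) : ℂ) * I) := by
    intro y hy
    have hy1 : |y| < 1 := by rw [abs_of_pos hy.1]; exact hy.2
    obtain ⟨H, hH, hHU⟩ := hB y hy1
    obtain ⟨K, hK, hKU⟩ := hB (-y) (by rw [abs_neg]; exact hy1)
    refine ⟨H * fun w => conj (K w), BB_mul hH (BB_conj hK), ?_⟩
    intro w hw
    simp only [Pi.mul_apply]
    rw [hHU w hw, hKU w hw, ← Complex.exp_conj, ← Complex.exp_add]
    congr 1
    rw [map_mul, map_mul, Complex.conj_I, Complex.conj_ofReal]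
    have h2 : l w + conj (l w) = ((2 * (l w).re : ℝ) : ℂ) := Complex.add_conj (l w)
    push_cast at h2 ⊢
    linear_combination (I * (y : ℂ)) * h2
  choose! P hPB hPU using hP
  -- the transform has no zeros
  have hUuniv : U = univ := by
    by_contra hcon
    have hfr : (frontier U).Nonempty := by
      rw [nonempty_iff_ne_empty]
      intro h0
      rcases isClopen_iff.1 (isClopen_iff_frontier_eq_empty.2 h0) with h | h
      · exact hUne.ne_empty h
      · exact hcon h
    obtain ⟨β, hβ⟩ := hfr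
    have hβU : β ∉ U := by
      rw [hUo.frontier_eq] at hβ
      exact hβ.2
    obtain ⟨u, huU, hu⟩ := mem_closure_iff_seq_limit.1 (frontier_subset_closure hβ)
    have hF0 : F1 β = 0 := by
      by_contra h
      exact hβU h
    have h2 : Tendsto (fun n => ‖F1 (u n)‖) atTop (𝓝 0) := by
      have := ((hF1c.tendsto β).comp hu).norm
      rw [hF0, norm_zero] at this
      exact this
    have h3 : Tendsto (fun n => (l (u n)).re) atTop atBot := by
      rw [← Real.tendsto_exp_comp_nhds_zero]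
      refine h2.congr fun n => ?_
      rw [hre _ (huU n)]
    have h4 : Tendsto (fun n => 2 * (l (u n)).re) atTop (cocompact ℝ) :=
      (h3.const_mul_atBot two_pos).mono_right atBot_le_cocompact
    have h5 := ae_zero_of_weak (Φ := fun n y => cexp (((y * (2 * (l (u n)).re) : ℝ) : ℂ) * I))
      (G := fun y => P y β)
      (fun n => by
        apply Continuous.measurable
        fun_prop)
      (fun n y => (Complex.norm_exp_ofReal_mul_I _).le)
      (fun y hy => by
        have h6 : Continuous (P y) := (good_of_BB (hPB y hy)).1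
        refine ((h6.tendsto β).comp hu).congr fun n => ?_
        rw [Function.comp_apply, hPU y hy _ (huU n)])
      (fun g _ => (rl_Ioo (g := g)).comp h4)
    have h7 : ∀ y ∈ Ioo (0 : ℝ) 1, ‖P y β‖ = 1 := by
      intro y hy
      have h6 : Continuous (P y) := (good_of_BB (hPB y hy)).1
      have h8 : Tendsto (fun n => ‖P y (u n)‖) atTop (𝓝 ‖P y β‖) :=
        ((h6.tendsto β).comp hu).norm
      have h9 : ∀ n, ‖P y (u n)‖ = 1 := by
        intro n
        rw [hPU y hy _ (huU n), Complex.norm_exp_ofReal_mul_I]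
      simp_rw [h9] at h8
      exact (tendsto_nhds_unique h8 tendsto_const_nhds)
    rw [ae_restrict_iff' measurableSet_Ioo, ae_iff] at h5
    have h10 : Ioo (0 : ℝ) 1 ⊆ {y | ¬(y ∈ Ioo (0 : ℝ) 1 → P y β = 0)} := by
      intro y hy
      simp only [mem_ofPred_eq, Classical.not_imp]
      refine ⟨hy, fun h => ?_⟩
      have := h7 y hy
      rw [h, norm_zero] at this
      exact zero_ne_one this
    have h11 := measure_mono_null h10 h5
    rw [Real.volume_Ioo] at h11
    norm_num at h11
  -- the real even exponent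
  have hmemU : ∀ w, w ∈ U := fun w => by rw [hUuniv]; trivial
  have hlc' : Continuous l := by
    rw [hUuniv] at hlc
    exact continuousOn_univ.1 hlc
  set R : ℝ → ℝ := fun w => 2 * (l w).re with hR
  have hRc : Continuous R := by
    rw [hR]
    exact continuous_const.mul (Complex.continuous_re.comp hlc')
  have hRlim : Tendsto R (cocompact ℝ) atBot := by
    have h2 : Tendsto (fun w => ‖F1 w‖) (cocompact ℝ) (𝓝 0) := by
      have := (Real.zero_at_infty_fourier (a 1 : ℝ → ℂ)).norm
      rw [norm_zero] at this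
      exact this
    have h3 : Tendsto (fun w => (l w).re) (cocompact ℝ) atBot := by
      rw [← Real.tendsto_exp_comp_nhds_zero]
      refine h2.congr fun w => ?_
      rw [hre _ (hmemU w)]
    exact h3.const_mul_atBot two_pos
  have hneg : Tendsto (fun w : ℝ => -w) (cocompact ℝ) (cocompact ℝ) :=
    (Homeomorph.neg ℝ).isClosedEmbedding.tendsto_cocompact
  apply no_group (Ψ := fun w => R w + R (-w)) (hRc.add (hRc.comp continuous_neg))
    (fun t => by simp only [neg_neg]; ring)
  · have h2 : Tendsto (fun w => R w + R (-w)) (cocompact ℝ) atBot :=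
      hRlim.atBot_add_atBot (hRlim.comp hneg)
    exact h2.mono_right atBot_le_cocompact
  · intro y hy0 hy1
    have hy : y ∈ Ioo (0 : ℝ) 1 := ⟨hy0, hy1⟩
    have h2 : ee (fun w => R w + R (-w)) y = P y * fun w => P y (-1 * w) := by
      ext w
      simp only [Pi.mul_apply]
      rw [hPU y hy _ (hmemU _), hPU y hy _ (hmemU _), ← Complex.exp_add]
      unfold ee
      congr 1
      rw [neg_one_mul]
      simp only [hR]
      push_cast
      ring
    rw [h2]
    exact BB_mul (hPB y hy) (BB_comp_mul (-1) (hPB y hy))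

end Pool.Agent.Y869.LS
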